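import Mathlib

set_option autoImplicit false

namespace Pool.Agent.Results.MP_6800d9_co.AreaThree

open Finset Set

variable {ι : Type*}

/-- The translate by the vector `v` of the rectangle `[0,a] × [0,b]`. -/
def rect (a b : ℝ) (v : ℝ × ℝ) : Set (ℝ × ℝ) :=
  Set.Icc v.1 (v.1 + a) ×ˢ Set.Icc v.2 (v.2 + b)

lemma mem_rect {a b : ℝ} {v p : ℝ × ℝ} :
    p ∈ rect a b v ↔ (v.1 ≤ p.1 ∧ p.1 ≤ v.1 + a) ∧ (v.2 ≤ p.2 ∧ p.2 ≤ v.2 + b) := Iff.rfl

open Classical in
/-- A row: the tallest rectangles, just enough of them to reach total width `w`. -/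
lemma exists_row (a b : ι → ℝ) (w : ℝ) (hw : 0 < w) (n : ℕ) :
    ∀ s : Finset ι, s.card = n → w ≤ ∑ i ∈ s, a i →
      ∃ R ⊆ s, ∃ l ∈ R, w ≤ ∑ i ∈ R, a i ∧ ∑ i ∈ R.erase l, a i < w ∧
        (∀ i ∈ R, b l ≤ b i) ∧ (∀ i ∈ s \ R, b i ≤ b l) := by
  induction n with
  | zero =>
    intro s hs hws
    rw [Finset.card_eq_zero] at hs
    subst hs
    rw [Finset.sum_empty] at hws
    exact absurd hws (not_le.2 hw)
  | succ n ih =>
    intro s hs hws
    have hne : s.Nonempty := by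
      rw [← Finset.card_pos, hs]; omega
    obtain ⟨m, hm, hmin⟩ := s.exists_min_image b hne
    by_cases h : w ≤ ∑ i ∈ s.erase m, a i
    · obtain ⟨R, hR, l, hl, h1, h2, h3, h4⟩ := ih (s.erase m)
        (by rw [Finset.card_erase_of_mem hm, hs]; rfl) h
      refine ⟨R, hR.trans (Finset.erase_subset _ _), l, hl, h1, h2, h3, ?_⟩
      intro i hi
      by_cases him : i = m
      · subst him
        exact hmin l (Finset.mem_of_mem_erase (hR hl))
      · apply h4
        rw [Finset.mem_sdiff] at hi ⊢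
        exact ⟨Finset.mem_erase.2 ⟨him, hi.1⟩, hi.2⟩
    · refine ⟨s, Finset.Subset.refl _, m, hm, hws, not_le.1 h, hmin, ?_⟩
      intro i hi
      rw [Finset.sdiff_self] at hi
      exact absurd hi (Finset.notMem_empty _)

open Classical in
/-- Intervals placed side by side cover the interval of the total length. -/
lemma exists_line (a : ι → ℝ) (R : Finset ι) (hR : R.Nonempty) :
    ∃ x : ι → ℝ, ∀ t : ℝ, 0 ≤ t → t ≤ ∑ i ∈ R, a i → ∃ i ∈ R, x i ≤ t ∧ t ≤ x i + a i := by
  induction hR using Finset.Nonempty.cons_induction with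
  | singleton i =>
    refine ⟨fun _ => 0, fun t h0 h1 => ⟨i, Finset.mem_singleton_self i, h0, ?_⟩⟩
    rw [Finset.sum_singleton] at h1
    linarith
  | cons i s hi hs ih =>
    obtain ⟨x, hx⟩ := ih
    refine ⟨fun j => if j = i then ∑ k ∈ s, a k else x j, fun t h0 h1 => ?_⟩
    rw [Finset.sum_cons] at h1
    by_cases h : t ≤ ∑ k ∈ s, a k
    · obtain ⟨j, hj, h2, h3⟩ := hx t h0 h
      have hji : j ≠ i := fun h => hi (h ▸ hj)
      refine ⟨j, Finset.mem_cons_of_mem hj, ?_⟩
      simp only [if_neg hji]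
      exact ⟨h2, h3⟩
    · refine ⟨i, Finset.mem_cons_self i s, ?_⟩
      simp only [if_pos]
      exact ⟨(not_le.1 h).le, by linarith⟩

open Classical in
/-- Greedy covering of a `w × h` box by a finite family of rectangles of widths at most `A` and
heights at most `B` and total area at least `w h + w B + h A`. -/
lemma greedy (a b : ι → ℝ) (ha : ∀ i, 0 ≤ a i) (hb : ∀ i, 0 ≤ b i) (w A : ℝ) (hw : 0 < w)
    (hA0 : 0 ≤ A) (hA : ∀ i, a i ≤ A) (n : ℕ) :
    ∀ (s : Finset ι) (h B : ℝ), s.card = n → 0 ≤ h → 0 < B → (∀ i ∈ s, b i ≤ B) →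
      w * h + w * B + h * A ≤ ∑ i ∈ s, a i * b i →
      ∃ v : ι → ℝ × ℝ, ∀ p : ℝ × ℝ, 0 ≤ p.1 → p.1 ≤ w → 0 ≤ p.2 → p.2 ≤ h →
        ∃ i ∈ s, p ∈ rect (a i) (b i) (v i) := by
  induction n using Nat.strong_induction_on with
  | _ n ih =>
    intro s h B hs hh hB hBs harea
    -- the total width is at least w
    have hwidth : w ≤ ∑ i ∈ s, a i := by
      by_contra hcon
      push Not at hcon
      have h1 : ∑ i ∈ s, a i * b i ≤ (∑ i ∈ s, a i) * B := by
        rw [Finset.sum_mul]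
        exact Finset.sum_le_sum fun i hi => mul_le_mul_of_nonneg_left (hBs i hi) (ha i)
      have h2 : (∑ i ∈ s, a i) * B < w * B := mul_lt_mul_of_pos_right hcon hB
      have h3 : 0 ≤ w * h := mul_nonneg hw.le hh
      have h4 : 0 ≤ h * A := mul_nonneg hh hA0
      linarith
    obtain ⟨R, hRs, l, hl, h1, h2, h3, h4⟩ := exists_row a b w hw n s hs hwidth
    obtain ⟨x, hx⟩ := exists_line a R ⟨l, hl⟩
    by_cases hlh : h ≤ b l
    · -- one row is enough
      refine ⟨fun i => (x i, 0), fun p hp1 hp2 hp3 hp4 => ?_⟩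
      obtain ⟨i, hi, h5, h6⟩ := hx p.1 hp1 (hp2.trans h1)
      refine ⟨i, hRs hi, mem_rect.2 ⟨⟨h5, h6⟩, hp3, ?_⟩⟩
      have := h3 i hi
      simp only [zero_add]
      linarith
    · push Not at hlh
      have hcard : (s \ R).card < n := by
        rw [← hs]
        apply Finset.card_lt_card
        refine ⟨Finset.sdiff_subset, fun hsub => ?_⟩
        exact (Finset.mem_sdiff.1 (hsub (hRs hl))).2 hl
      have harea2 : ∑ i ∈ R, a i * b i ≤ w * B + b l * A := by
        rw [← Finset.add_sum_erase R _ hl]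
        have h5 : ∑ i ∈ R.erase l, a i * b i ≤ (∑ i ∈ R.erase l, a i) * B := by
          rw [Finset.sum_mul]
          exact Finset.sum_le_sum fun i hi => mul_le_mul_of_nonneg_left
            (hBs i (hRs (Finset.mem_of_mem_erase hi))) (ha i)
        have h6 : (∑ i ∈ R.erase l, a i) * B ≤ w * B :=
          mul_le_mul_of_nonneg_right h2.le hB.le
        have h7 : a l * b l ≤ A * b l := mul_le_mul_of_nonneg_right (hA l) (hb l)
        linarith
      have hsum : ∑ i ∈ s \ R, a i * b i + ∑ i ∈ R, a i * b i = ∑ i ∈ s, a i * b i :=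
        Finset.sum_sdiff hRs
      have hbl : 0 < b l := by
        rcases (hb l).lt_or_eq with h5 | h5
        · exact h5
        · exfalso
          -- all remaining rectangles have zero height
          have h6 : ∑ i ∈ s \ R, a i * b i = 0 := by
            apply Finset.sum_eq_zero
            intro i hi
            have : b i = 0 := le_antisymm (h5 ▸ h4 i hi) (hb i)
            rw [this, mul_zero]
          have h7 : 0 < w * h := mul_pos hw (lt_of_le_of_lt (hb l) hlh)
          have h8 : 0 ≤ h * A := mul_nonneg hh hA0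
          rw [← h5] at harea2
          linarith
      obtain ⟨v, hv⟩ := ih _ hcard (s \ R) (h - b l) (b l) rfl (by linarith) hbl h4 (by
        have e : w * (h - b l) + w * b l + (h - b l) * A = w * h + h * A - b l * A := by ring
        rw [e]
        linarith)
      refine ⟨fun i => if i ∈ R then (x i, 0) else ((v i).1, (v i).2 + b l),
        fun p hp1 hp2 hp3 hp4 => ?_⟩
      by_cases hp : p.2 ≤ b l
      · obtain ⟨i, hi, h5, h6⟩ := hx p.1 hp1 (hp2.trans h1)
        refine ⟨i, hRs hi, ?_⟩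
        simp only [if_pos hi]
        refine mem_rect.2 ⟨⟨h5, h6⟩, hp3, ?_⟩
        have := h3 i hi
        simp only [zero_add]
        linarith
      · push Not at hp
        obtain ⟨i, hi, h5⟩ := hv (p.1, p.2 - b l) hp1 hp2 (by simp only; linarith)
          (by simp only; linarith)
        have hiR : i ∉ R := (Finset.mem_sdiff.1 hi).2
        refine ⟨i, (Finset.mem_sdiff.1 hi).1, ?_⟩
        simp only [if_neg hiR]
        rw [mem_rect] at h5 ⊢
        simp only at h5 ⊢
        refine ⟨h5.1, by linarith [h5.2.1], by linarith [h5.2.2]⟩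

open Classical in
/-- The case in which some rectangle has width `1`. -/
lemma main_width (a b : ι → ℝ) (ha : ∀ i, 0 < a i) (ha1 : ∀ i, a i ≤ 1) (hb : ∀ i, 0 < b i)
    (hb1 : ∀ i, b i ≤ 1) (T : ℝ) (hT : 3 ≤ T) (hsum : HasSum (fun i => a i * b i) T)
    (i₀ : ι) (hi₀ : a i₀ = 1) :
    ∃ v : ι → ℝ × ℝ, ∀ p : ℝ × ℝ, 0 ≤ p.1 → p.1 ≤ 1 → 0 ≤ p.2 → p.2 ≤ 1 →
      ∃ i, p ∈ rect (a i) (b i) (v i) := by
  have hev : ∀ᶠ s : Finset ι in Filter.atTop, 3 - b i₀ < ∑ i ∈ s, a i * b i :=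
    hsum.eventually (lt_mem_nhds (by linarith [hb i₀]))
  obtain ⟨s, hs⟩ := hev.exists
  have hs2 : 3 - 2 * b i₀ ≤ ∑ i ∈ s.erase i₀, a i * b i := by
    by_cases h : i₀ ∈ s
    · rw [← Finset.add_sum_erase s _ h, hi₀] at hs
      linarith
    · rw [Finset.erase_eq_of_notMem h]
      linarith [hb i₀]
  obtain ⟨v, hv⟩ := greedy a b (fun i => (ha i).le) (fun i => (hb i).le) 1 1 one_pos zero_le_one
    ha1 _ (s.erase i₀) (1 - b i₀) 1 rfl (by linarith [hb1 i₀]) one_pos (fun i _ => hb1 i)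
    (by linarith)
  refine ⟨fun i => if i = i₀ then (0, 0) else ((v i).1, (v i).2 + b i₀),
    fun p hp1 hp2 hp3 hp4 => ?_⟩
  by_cases hp : p.2 ≤ b i₀
  · refine ⟨i₀, ?_⟩
    simp only [if_pos, hi₀]
    refine mem_rect.2 ⟨⟨hp1, ?_⟩, hp3, ?_⟩ <;> simp only [zero_add] <;> assumption
  · push Not at hp
    obtain ⟨i, hi, h5⟩ := hv (p.1, p.2 - b i₀) hp1 hp2 (by simp only; linarith)
      (by simp only; linarith)
    have hne : i ≠ i₀ := Finset.ne_of_mem_erase hi
    refine ⟨i, ?_⟩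
    simp only [if_neg hne]
    rw [mem_rect] at h5 ⊢
    simp only at h5 ⊢
    exact ⟨h5.1, by linarith [h5.2.1], by linarith [h5.2.2]⟩

/-- **Moser's question.** Every (finite or infinite) family of axis-parallel rectangles
`[0, a i] × [0, b i]` with all sides at most `1`, some side equal to `1`, and total area at least
`3` can be translated so as to cover the unit square. -/
theorem result (a b : ι → ℝ) (ha : ∀ i, 0 < a i ∧ a i ≤ 1) (hb : ∀ i, 0 < b i ∧ b i ≤ 1)
    (hside : ∃ i, a i = 1 ∨ b i = 1) (T : ℝ) (hT : 3 ≤ T)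
    (hsum : HasSum (fun i => a i * b i) T) :
    ∃ v : ι → ℝ × ℝ, Set.Icc (0 : ℝ) 1 ×ˢ Set.Icc (0 : ℝ) 1 ⊆ ⋃ i, rect (a i) (b i) (v i) := by
  obtain ⟨i₀, h | h⟩ := hside
  · obtain ⟨v, hv⟩ := main_width a b (fun i => (ha i).1) (fun i => (ha i).2) (fun i => (hb i).1)
      (fun i => (hb i).2) T hT hsum i₀ h
    refine ⟨v, fun p hp => ?_⟩
    obtain ⟨i, hi⟩ := hv p hp.1.1 hp.1.2 hp.2.1 hp.2.2
    exact Set.mem_iUnion.2 ⟨i, hi⟩
  · have hsum' : HasSum (fun i => b i * a i) T := by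
      simpa only [mul_comm] using hsum
    obtain ⟨v, hv⟩ := main_width b a (fun i => (hb i).1) (fun i => (hb i).2) (fun i => (ha i).1)
      (fun i => (ha i).2) T hT hsum' i₀ h
    refine ⟨fun i => ((v i).2, (v i).1), fun p hp => ?_⟩
    obtain ⟨i, hi⟩ := hv (p.2, p.1) hp.2.1 hp.2.2 hp.1.1 hp.1.2
    rw [mem_rect] at hi
    exact Set.mem_iUnion.2 ⟨i, mem_rect.2 ⟨hi.2, hi.1⟩⟩

end Pool.Agent.Results.MP_6800d9_co.AreaThree
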